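import Mathlib

set_option autoImplicit false

namespace Pool.Agent.H.MP_1dd1a8_co

open Finset

variable {v : ℕ} [NeZero v]

def g (u : ZMod v) (p : ZMod v × ZMod v) : ZMod v := p.2 + u * (p.2 - p.1)

def sg (u : ZMod v) (p : ZMod v × ZMod v) : ZMod v × ZMod v := (p.2, g u p)

def f (u : ZMod v) (p : ZMod v × ZMod v) : Finset (ZMod v) := {p.1, p.2, g u p}

def mn (u : ZMod v) (p : ZMod v × ZMod v) : Prop := p.1.val < p.2.val ∧ p.1.val < (g u p).val

instance (u : ZMod v) : DecidablePred (mn u) := fun p => by unfold mn; infer_instance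

def des (u : ZMod v) : Multiset (Finset (ZMod v)) :=
  ((univ.filter fun p : ZMod v × ZMod v => p.1 ≠ p.2).filter (mn u)).val.map (f u)

omit [NeZero v] in
lemma g_sg (u : ZMod v) (hu : u ^ 2 + u + 1 = 0) (p : ZMod v × ZMod v) : g u (sg u p) = p.1 := by
  simp only [g, sg]
  linear_combination (p.2 - p.1) * hu

omit [NeZero v] in
lemma sg3 (u : ZMod v) (hu : u ^ 2 + u + 1 = 0) (p : ZMod v × ZMod v) :
    sg u (sg u (sg u p)) = p := by
  have h1 : sg u (sg u p) = (g u p, p.1) := Prod.ext rfl (g_sg u hu p)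
  refine Prod.ext ?_ ?_
  · rw [h1]
    rfl
  · exact g_sg u hu (sg u p)

omit [NeZero v] in
lemma sg_ne (u : ZMod v) (hu : u ^ 2 + u + 1 = 0) (p : ZMod v × ZMod v) (h : p.1 ≠ p.2) :
    p.2 ≠ g u p := by
  intro h1
  apply h
  simp only [g] at h1
  linear_combination (-(u + 1)) * h1 - (p.2 - p.1) * hu

omit [NeZero v] in
lemma sg_ne' (u : ZMod v) (hu : u ^ 2 + u + 1 = 0) (p : ZMod v × ZMod v) (h : p.1 ≠ p.2) :
    g u p ≠ p.1 := by
  have := sg_ne u hu (sg u p) (sg_ne u hu p h)
  rwa [g_sg u hu] at this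

omit [NeZero v] in
lemma f_sg (u : ZMod v) (hu : u ^ 2 + u + 1 = 0) (p : ZMod v × ZMod v) : f u (sg u p) = f u p := by
  unfold f
  rw [g_sg u hu]
  ext x
  simp only [sg, mem_insert, mem_singleton]
  constructor
  · rintro (h | h | h) <;> simp [h]
  · rintro (h | h | h) <;> simp [h]

omit [NeZero v] in
lemma f_card (u : ZMod v) (hu : u ^ 2 + u + 1 = 0) (p : ZMod v × ZMod v) (h : p.1 ≠ p.2) :
    (f u p).card = 3 :=
  card_eq_three.mpr ⟨_, _, _, h, (sg_ne' u hu p h).symm, sg_ne u hu p h, rfl⟩

lemma third (u : ZMod v) (hu : u ^ 2 + u + 1 = 0) (Q : Finset (ZMod v) → Prop) [DecidablePred Q]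
    (h : ZMod v × ZMod v → Prop) [DecidablePred h]
    (hh : ∀ p : ZMod v × ZMod v, p.1 ≠ p.2 → Q (f u p) →
      (if h p then 1 else 0) + (if h (sg u p) then 1 else 0) +
        (if h (sg u (sg u p)) then 1 else 0) = 1) :
    (univ.filter fun p : ZMod v × ZMod v => p.1 ≠ p.2 ∧ Q (f u p)).card =
      3 * ((univ.filter fun p : ZMod v × ZMod v => p.1 ≠ p.2 ∧ Q (f u p)).filter h).card := by
  set S := univ.filter fun p : ZMod v × ZMod v => p.1 ≠ p.2 ∧ Q (f u p) with hS
  have hm : ∀ p ∈ S, sg u p ∈ S := by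
    intro p hp
    simp only [hS, mem_filter, mem_univ, true_and] at hp ⊢
    exact ⟨sg_ne u hu p hp.1, by rw [f_sg u hu]; exact hp.2⟩
  have hb : ∀ φ : ZMod v × ZMod v → ℕ, ∑ p ∈ S, φ (sg u p) = ∑ p ∈ S, φ p := by
    intro φ
    exact sum_nbij' (sg u) (fun p => sg u (sg u p)) hm (fun p hp => hm _ (hm p hp))
      (fun p _ => sg3 u hu p) (fun p _ => sg3 u hu p) fun _ _ => rfl
  have h1 : S.card = ∑ p ∈ S, ((if h p then 1 else 0) + (if h (sg u p) then 1 else 0) +
      (if h (sg u (sg u p)) then 1 else 0)) := by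
    rw [card_eq_sum_ones]
    refine sum_congr rfl fun p hp => ?_
    simp only [hS, mem_filter, mem_univ, true_and] at hp
    exact (hh p hp.1 hp.2).symm
  rw [h1, sum_add_distrib, sum_add_distrib, hb (fun p => if h (sg u p) then 1 else 0),
    hb (fun p => if h p then 1 else 0), card_filter]
  ring

lemma des_count (u : ZMod v) (hu : u ^ 2 + u + 1 = 0) (Q : Finset (ZMod v) → Prop)
    [DecidablePred Q] : 3 * ((des u).filter Q).card =
      (univ.filter fun p : ZMod v × ZMod v => p.1 ≠ p.2 ∧ Q (f u p)).card := by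
  rw [third u hu Q (mn u)]
  · congr 1
    rw [des, Multiset.filter_map, Multiset.card_map, ← filter_val, card_val, filter_filter,
      filter_filter, filter_filter]
    congr 1
    refine filter_congr fun p _ => ?_
    simp only [Function.comp]
    constructor
    · rintro ⟨a, b, c⟩
      exact ⟨⟨a, c⟩, b⟩
    · rintro ⟨⟨a, c⟩, b⟩
      exact ⟨a, b, c⟩
  · intro p hp _
    have a1 : p.1.val ≠ p.2.val := fun h => hp (ZMod.val_injective v h)
    have a2 : p.2.val ≠ (g u p).val := fun h => sg_ne u hu p hp (ZMod.val_injective v h)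
    have a3 : (g u p).val ≠ p.1.val := fun h => sg_ne' u hu p hp (ZMod.val_injective v h)
    have e1 : mn u (sg u p) ↔ p.2.val < (g u p).val ∧ p.2.val < p.1.val := by
      unfold mn
      rw [g_sg u hu]
      rfl
    have e2 : mn u (sg u (sg u p)) ↔ (g u p).val < p.1.val ∧ (g u p).val < p.2.val := by
      unfold mn
      rw [g_sg u hu, show (sg u (sg u p)).2 = p.1 from g_sg u hu p]
      rfl
    have e0 : mn u p ↔ p.1.val < p.2.val ∧ p.1.val < (g u p).val := Iff.rfl
    simp only [e0, e1, e2]
    split_ifs <;> omega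

lemma des_mem (u : ZMod v) (B : Finset (ZMod v)) (h : B ∈ des u) :
    ∃ p : ZMod v × ZMod v, p.1 ≠ p.2 ∧ f u p = B := by
  obtain ⟨p, hp, rfl⟩ := Multiset.mem_map.mp h
  exact ⟨p, (mem_filter.mp (mem_filter.mp hp).1).2, rfl⟩

omit [NeZero v] in
lemma pair_cases (u : ZMod v) (hu : u ^ 2 + u + 1 = 0) (x y : ZMod v) (hxy : x ≠ y)
    (p : ZMod v × ZMod v) (h1 : p.1 = x) (h2 : y ∈ f u p) : p = (x, y) ∨ p = sg u (y, x) := by
  simp only [f, mem_insert, mem_singleton] at h2
  rcases h2 with h2 | h2 | h2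
  · exact absurd (h1.symm.trans h2.symm) hxy
  · exact Or.inl (Prod.ext h1 h2.symm)
  · right
    have : sg u (sg u p) = (y, x) := Prod.ext h2.symm ((g_sg u hu p).trans h1)
    rw [← this, sg3 u hu]

lemma des_pair (u : ZMod v) (hu : u ^ 2 + u + 1 = 0) (x y : ZMod v) (hxy : x ≠ y) :
    ((des u).filter fun B => x ∈ B ∧ y ∈ B).card = 2 := by
  have h1 := des_count u hu fun B => x ∈ B ∧ y ∈ B
  rw [third u hu (fun B => x ∈ B ∧ y ∈ B) (fun p => p.1 = x)] at h1
  · have h2 : ((univ.filter fun p : ZMod v × ZMod v => p.1 ≠ p.2 ∧ x ∈ f u p ∧ y ∈ f u p).filter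
        fun p => p.1 = x) = {(x, y), sg u (y, x)} := by
      ext p
      simp only [mem_filter, mem_univ, true_and, mem_insert, mem_singleton]
      constructor
      · rintro ⟨⟨_, _, a⟩, b⟩
        exact pair_cases u hu x y hxy p b a
      · rintro (rfl | rfl)
        · exact ⟨⟨hxy, by simp [f], by simp [f]⟩, rfl⟩
        · refine ⟨⟨sg_ne u hu (y, x) hxy.symm, ?_⟩, rfl⟩
          rw [f_sg u hu]
          simp [f]
    rw [h2, card_pair] at h1
    · omega
    · intro h
      exact sg_ne' u hu (y, x) hxy.symm (congrArg Prod.snd h).symm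
  · intro p hp hQ
    have a2 := sg_ne u hu p hp
    have a3 := sg_ne' u hu p hp
    have hx := hQ.1
    simp only [f, mem_insert, mem_singleton] at hx
    have e1 : (sg u p).1 = p.2 := rfl
    have e2 : (sg u (sg u p)).1 = g u p := rfl
    rw [e1, e2]
    rcases hx with rfl | rfl | rfl
    · simp [hp.symm, a3]
    · simp [hp, a2.symm]
    · simp [a2, a3.symm]

lemma des_shift (u : ZMod v) (hu : u ^ 2 + u + 1 = 0) (t : ZMod v) (B : Finset (ZMod v)) :
    (des u).count (B.image (· + t)) = (des u).count B := by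
  have h1 := des_count u hu fun C => B.image (· + t) = C
  have h2 := des_count u hu fun C => B = C
  have hf : ∀ (s : ZMod v) (p : ZMod v × ZMod v),
      f u (p.1 + s, p.2 + s) = (f u p).image (· + s) := by
    intro s p
    have : g u (p.1 + s, p.2 + s) = g u p + s := by
      simp only [g]
      ring
    simp [f, this]
  have h3 : (univ.filter fun p : ZMod v × ZMod v => p.1 ≠ p.2 ∧ B = f u p).card =
      (univ.filter fun p : ZMod v × ZMod v => p.1 ≠ p.2 ∧ B.image (· + t) = f u p).card := by
    refine card_nbij' (fun p => (p.1 + t, p.2 + t)) (fun p => (p.1 + -t, p.2 + -t)) ?_ ?_ ?_ ?_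
    · intro p hp
      simp only [coe_filter, mem_univ, true_and, Set.mem_ofPred_eq] at hp ⊢
      exact ⟨fun h => hp.1 (add_right_cancel h), by rw [hf, hp.2]⟩
    · intro p hp
      simp only [coe_filter, mem_univ, true_and, Set.mem_ofPred_eq] at hp ⊢
      refine ⟨fun h => hp.1 (add_right_cancel h), ?_⟩
      rw [hf, ← hp.2, image_image]
      simp [Function.comp_def]
    · intro p _
      simp
    · intro p _
      simp
  rw [Multiset.count_eq_card_filter_eq, Multiset.count_eq_card_filter_eq]
  omega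

lemma des_short (u w : ZMod v) (hu : u ^ 2 + u + 1 = 0) (hw : w ≠ 0) (huw : u * w = w) :
    (des u).count {0, w, w + w} = 2 := by
  have h3 : w + w + w = 0 := by linear_combination w * hu - (u + 2) * huw
  rw [Multiset.count_eq_card_filter_eq, ← des_pair u hu 0 w hw.symm]
  congr 1
  refine Multiset.filter_congr fun B hB => ⟨?_, ?_⟩
  · rintro rfl
    simp
  · rintro ⟨b0, bw⟩
    obtain ⟨p, hp, rfl⟩ := des_mem u B hB
    have key : ∀ q : ZMod v × ZMod v, q.1 = 0 → w ∈ f u q → {0, w, w + w} = f u q := by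
      intro q q1 q2
      rcases pair_cases u hu 0 w hw.symm q q1 q2 with rfl | rfl
      · simp [f, g, huw]
      · rw [f_sg u hu]
        have : g u (w, 0) = w + w := by
          simp only [g]
          linear_combination -huw - h3
        simp only [f, this]
        exact insert_comm _ _ _
    simp only [f, mem_insert, mem_singleton] at b0
    rcases b0 with b0 | b0 | b0
    · exact key p b0.symm bw
    · rw [← f_sg u hu p] at bw ⊢
      exact key _ b0.symm bw
    · rw [← f_sg u hu p, ← f_sg u hu (sg u p)] at bw ⊢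
      exact key _ b0.symm bw

lemma no_reps (D : Multiset (Finset (ZMod v))) (w : ZMod v) (hw : w ≠ 0) (h3 : w + w + w = 0)
    (hc : ∀ B ∈ D, B.card = 3)
    (hp : ∀ x y, x ≠ y → (D.filter fun B => x ∈ B ∧ y ∈ B).card = 2)
    (hs : D.count {0, w, w + w} = 2) (n : ℕ) (R : Fin n → Finset (ZMod v))
    (hd : Pairwise fun i j => Disjoint (R i) (R j))
    (hR : ∀ B, (univ.filter fun i => ∃ t, R i = B.image (· + t)).card = D.count B) : False := by
  have hR3 : ∀ i, (R i).card = 3 := by
    intro i
    refine hc _ (Multiset.one_le_count_iff_mem.mp ?_)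
    rw [← hR]
    exact card_pos.mpr ⟨i, by simp only [mem_filter, mem_univ, true_and]; exact ⟨0, by simp⟩⟩
  have h1 : 3 * n ≤ v := by
    have a := card_biUnion (s := (univ : Finset (Fin n))) (t := R) fun i _ j _ h => hd h
    have b := card_le_univ (univ.biUnion R)
    rw [a, ZMod.card] at b
    simpa [hR3, mul_comm] using b
  set N : ZMod v → ℕ := fun d => ∑ i, ((R i).filter fun x => x + d ∈ R i).card with hN
  have h2 : ∑ d, N d = 9 * n := by
    simp only [hN]
    rw [sum_comm]
    have : ∀ i, ∑ d : ZMod v, ((R i).filter fun x => x + d ∈ R i).card = 9 := by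
      intro i
      simp only [card_filter]
      rw [sum_comm]
      have : ∀ x, ∑ d : ZMod v, (if x + d ∈ R i then 1 else 0) = 3 := by
        intro x
        rw [← card_filter, ← hR3 i]
        refine card_nbij' (fun d => x + d) (fun y => y - x) ?_ ?_ ?_ ?_ <;> intro a ha <;>
          simp_all
      simp [this, hR3]
    simp [this, mul_comm]
  have h4 : N 0 = 3 * n := by simp [hN, hR3, mul_comm]
  have h5 : ∀ d, d ≠ 0 → 2 ≤ N d := by
    intro d hd0
    rw [← hp 0 d hd0.symm, ← Multiset.toFinset_sum_count_eq]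
    calc ∑ B ∈ (D.filter fun B => 0 ∈ B ∧ d ∈ B).toFinset, (D.filter fun B => 0 ∈ B ∧ d ∈ B).count B
        = ∑ B ∈ (D.filter fun B => 0 ∈ B ∧ d ∈ B).toFinset,
            ∑ i, if ∃ t, R i = B.image (· + t) then 1 else 0 := by
          refine sum_congr rfl fun B hB => ?_
          rw [Multiset.count_filter_of_pos (p := fun B => 0 ∈ B ∧ d ∈ B)
            (Multiset.mem_filter.mp (Multiset.mem_toFinset.mp hB)).2, ← hR, card_filter]
      _ ≤ _ := by
          rw [sum_comm]
          refine sum_le_sum fun i _ => ?_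
          rw [← card_filter]
          refine le_trans (card_le_card ?_) (card_image_le (f := fun x => (R i).image (· + -x)))
          intro B hB
          obtain ⟨b1, t, b2⟩ := mem_filter.mp hB
          obtain ⟨b3, b4⟩ := (Multiset.mem_filter.mp (Multiset.mem_toFinset.mp b1)).2
          refine mem_image.mpr ⟨t, mem_filter.mpr ⟨?_, ?_⟩, ?_⟩
          · rw [b2]
            exact mem_image.mpr ⟨0, b3, zero_add t⟩
          · rw [b2]
            exact mem_image.mpr ⟨d, b4, add_comm d t⟩
          · rw [b2, image_image]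
            simp [Function.comp_def]
  have h6 : 6 ≤ N w := by
    have a := hR {0, w, w + w}
    rw [hs] at a
    calc 6 = ∑ i ∈ univ.filter fun i => ∃ t, R i = ({0, w, w + w} : Finset (ZMod v)).image (· + t),
          3 := by rw [sum_const, a]; rfl
      _ = ∑ i ∈ univ.filter fun i => ∃ t, R i = ({0, w, w + w} : Finset (ZMod v)).image (· + t),
          ((R i).filter fun x => x + w ∈ R i).card := by
          refine sum_congr rfl fun i hi => ?_
          obtain ⟨t, ht⟩ := (mem_filter.mp hi).2
          rw [filter_true_of_mem, hR3]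
          intro x hx
          rw [ht] at hx ⊢
          obtain ⟨y, hy, rfl⟩ := mem_image.mp hx
          refine mem_image.mpr ⟨y + w, ?_, by ring⟩
          simp only [mem_insert, mem_singleton] at hy ⊢
          rcases hy with rfl | rfl | rfl
          · simp
          · simp
          · exact Or.inl h3
      _ ≤ _ := sum_le_sum_of_subset (filter_subset _ _)
  have h7 : ∑ d, N d = N 0 + (N w + ∑ d ∈ (univ.erase 0).erase w, N d) := by
    rw [add_sum_erase _ _ (mem_erase.mpr ⟨hw, mem_univ _⟩), add_sum_erase _ _ (mem_univ _)]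
  have h8 : ((univ.erase 0).erase w).card • 2 ≤ ∑ d ∈ (univ.erase 0).erase w, N d :=
    card_nsmul_le_sum _ _ _ fun d hd => h5 d (mem_erase.mp (mem_erase.mp hd).2).1
  rw [card_erase_of_mem (mem_erase.mpr ⟨hw, mem_univ _⟩), card_erase_of_mem (mem_univ _), card_univ,
    ZMod.card, smul_eq_mul] at h8
  omega

end Pool.Agent.H.MP_1dd1a8_co
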